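import Pool.Agent.Q8.LP.Main

namespace Q8.LP

open Finset MeasureTheory
open scoped ENNReal

lemma ediam_le (M : ℕ) : (GG M).ediam ≤ 4 := by
  refine le_trans (SimpleGraph.ediam_le_two_mul_eccent (Sum.inr (Sum.inr ()))) ?_
  have h : (GG M).eccent (Sum.inr (Sum.inr ())) ≤ 2 := by
    unfold SimpleGraph.eccent
    refine iSup_le ?_
    have hb : ∀ i : Fin (M + 2), (GG M).Adj (Sum.inr (Sum.inr ())) (Sum.inr (Sum.inl i)) :=
      fun i => trivial
    have hx : ∀ i : Fin (M + 2), (GG M).Adj (Sum.inr (Sum.inl i)) (Sum.inl i) :=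
      fun i => rfl
    rintro (i | i | i)
    · have w : (GG M).Walk (Sum.inr (Sum.inr ())) (Sum.inl i) :=
        SimpleGraph.Walk.cons (hb i) (SimpleGraph.Walk.cons (hx i) SimpleGraph.Walk.nil)
      exact (SimpleGraph.Walk.cons (hb i) (SimpleGraph.Walk.cons (hx i)
        SimpleGraph.Walk.nil)).edist_le
    · refine le_trans (SimpleGraph.Walk.cons (hb i) SimpleGraph.Walk.nil).edist_le ?_
      simp
    · have : i = () := rfl
      subst this
      simp
  calc 2 * (GG M).eccent (Sum.inr (Sum.inr ())) ≤ 2 * 2 := by gcongr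
    _ = 4 := by norm_num

lemma connected (M : ℕ) : (GG M).Connected := by
  have : Nonempty (VT M) := ⟨Sum.inr (Sum.inr ())⟩
  apply SimpleGraph.connected_of_ediam_ne_top
  intro h
  have := ediam_le M
  rw [h] at this
  simp at this

lemma diam_le (M : ℕ) : (GG M).diam ≤ 4 := by
  unfold SimpleGraph.diam
  have := ENat.toNat_le_toNat (ediam_le M) (by simp)
  simpa using this

lemma edges_le (M : ℕ) : (GG M).edgeSet.ncard ≤ 3 * (M + 2) := by
  classical
  let A : Finset (Sym2 (VT M)) := (Finset.univ : Finset (Fin (M + 2))).image (fun i =>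
    if h : i.val + 1 < M + 2 then s(Sum.inl i, Sum.inl ⟨i.val + 1, h⟩) else s(Sum.inl i, Sum.inl i))
  let B : Finset (Sym2 (VT M)) := (Finset.univ : Finset (Fin (M + 2))).image (fun i =>
    s(Sum.inl i, Sum.inr (Sum.inl i)))
  let C : Finset (Sym2 (VT M)) := (Finset.univ : Finset (Fin (M + 2))).image (fun i =>
    s(Sum.inr (Sum.inl i), Sum.inr (Sum.inr ())))
  have hsub : (GG M).edgeSet ⊆ ((A ∪ (B ∪ C) : Finset (Sym2 (VT M))) : Set (Sym2 (VT M))) := by
    intro e
    induction e using Sym2.ind with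
    | _ a b =>
      intro hab
      rw [SimpleGraph.mem_edgeSet] at hab
      simp only [Finset.coe_union, Set.mem_union, Finset.mem_coe]
      rcases a with i | i | i <;> rcases b with j | j | j
      · left
        rcases (show i.val + 1 = j.val ∨ j.val + 1 = i.val from hab) with h | h
        · refine Finset.mem_image.mpr ⟨i, Finset.mem_univ _, ?_⟩
          have hj := j.2
          rw [dif_pos (by omega)]
          have : (⟨i.val + 1, by omega⟩ : Fin (M + 2)) = j := Fin.ext h
          rw [this]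
        · refine Finset.mem_image.mpr ⟨j, Finset.mem_univ _, ?_⟩
          have hi := i.2
          rw [dif_pos (by omega)]
          have : (⟨j.val + 1, by omega⟩ : Fin (M + 2)) = i := Fin.ext h
          rw [this, Sym2.eq_swap]
      · right; left
        have : i = j := hab
        subst this
        exact Finset.mem_image.mpr ⟨i, Finset.mem_univ _, rfl⟩
      · exact absurd hab (by intro h; exact h)
      · right; left
        have : i = j := hab
        subst this
        exact Finset.mem_image.mpr ⟨i, Finset.mem_univ _, Sym2.eq_swap⟩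
      · exact absurd hab (by intro h; exact h)
      · right; right
        exact Finset.mem_image.mpr ⟨i, Finset.mem_univ _, rfl⟩
      · exact absurd hab (by intro h; exact h)
      · right; right
        exact Finset.mem_image.mpr ⟨j, Finset.mem_univ _, Sym2.eq_swap⟩
      · exact absurd hab (by intro h; exact h)
  calc (GG M).edgeSet.ncard ≤ ((A ∪ (B ∪ C) : Finset (Sym2 (VT M))) : Set (Sym2 (VT M))).ncard :=
        Set.ncard_le_ncard hsub (Finset.finite_toSet _)
    _ = (A ∪ (B ∪ C)).card := Set.ncard_coe_finset _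
    _ ≤ A.card + (B.card + C.card) :=
        le_trans (Finset.card_union_le _ _) (Nat.add_le_add_left (Finset.card_union_le _ _) _)
    _ ≤ (M + 2) + ((M + 2) + (M + 2)) := by
        have h1 : ∀ f : Fin (M + 2) → Sym2 (VT M), ((Finset.univ : Finset (Fin (M + 2))).image f).card ≤ M + 2 :=
          fun f => le_trans Finset.card_image_le (by simp)
        exact Nat.add_le_add (h1 _) (Nat.add_le_add (h1 _) (h1 _))
    _ = 3 * (M + 2) := by ring

lemma card_V (M : ℕ) : Fintype.card (VT M) = 2 * M + 5 := by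
  simp
  ring

/-- The numerical choice. -/
lemma numeric (D a : ℝ) (hD : 0 ≤ D) (ha : 0 ≤ a) : ∃ M : ℕ, 0 < M ∧
    D * (Real.log 40 + (2 + a) * Real.log ((M : ℝ) + 1)) < (M : ℝ) + 1 := by
  have h1 : (fun x : ℝ => D * (Real.log 40 + (2 + a) * Real.log x)) =o[Filter.atTop] (id : ℝ → ℝ) := by
    apply Asymptotics.IsLittleO.const_mul_left
    apply Asymptotics.IsLittleO.add
    · exact Asymptotics.isLittleO_const_id_atTop _
    · exact Asymptotics.IsLittleO.const_mul_left Real.isLittleO_log_id_atTop _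
  have h2 := h1.bound (show (0:ℝ) < 1 / 2 by norm_num)
  have h3 : Filter.Tendsto (fun M : ℕ => (M : ℝ) + 1) Filter.atTop Filter.atTop :=
    Filter.tendsto_atTop_add_const_right _ _ tendsto_natCast_atTop_atTop
  have h4 := h3.eventually h2
  obtain ⟨M, hM, hM'⟩ := (h4.and (Filter.eventually_gt_atTop 0)).exists
  refine ⟨M, hM', ?_⟩
  have h5 : (0:ℝ) < (M : ℝ) + 1 := by positivity
  calc D * (Real.log 40 + (2 + a) * Real.log ((M : ℝ) + 1))
      ≤ ‖D * (Real.log 40 + (2 + a) * Real.log ((M : ℝ) + 1))‖ := Real.le_norm_self _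
    _ ≤ 1 / 2 * ‖(id ((M : ℝ) + 1) : ℝ)‖ := hM
    _ = 1 / 2 * ((M : ℝ) + 1) := by
        rw [id, Real.norm_eq_abs, abs_of_pos h5]
    _ < (M : ℝ) + 1 := by linarith

theorem main (p : ℝ) (hp : 2 < p) (C : ℝ) :
    ∃ (V : Type) (_ : Fintype V) (G : SimpleGraph V) (I : Finset V) (_ : Nonempty I)
      (f₀ h : V → ℝ) (ε : ℝ), G.Connected ∧ I ≠ Finset.univ ∧
      (∀ v, 0 ≤ f₀ v ∧ f₀ v ≤ 1) ∧ IsPHarmonicExt G p I f₀ h ∧ 0 < ε ∧ ε ≤ 1 / 2 ∧
      ENNReal.ofReal (C * I.card * G.edgeSet.ncard * G.diam * Real.log (Fintype.card V / ε))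
        < expectedTime G p I f₀ h ε := by
  set a : ℝ := 2 / (p - 2) with ha
  have hp2 : 0 < p - 2 := by linarith
  have ha0 : 0 ≤ a := by positivity
  obtain ⟨M, hM, hnum⟩ := numeric (1152 * |C|) a (by positivity) ha0
  have : NeZero M := ⟨by omega⟩
  set L : ℝ := (M : ℝ) + 1 with hL
  have hL1 : 1 ≤ L := by rw [hL]; linarith [show (0:ℝ) ≤ M by positivity]
  have hL0 : 0 < L := by linarith
  set η : ℝ := sl M / 2 * L ^ (-a) with hη
  set κ : ℝ := η / (2 * L ^ 2) with hκ
  have hsl : 0 < sl M := sl_pos M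
  have hLa : 0 < L ^ (-a) := Real.rpow_pos_of_pos hL0 _
  have hLa1 : L ^ (-a) ≤ 1 := Real.rpow_le_one_of_one_le_of_nonpos hL1 (by linarith)
  have hη0 : 0 < η := by rw [hη]; positivity
  have hηs : η ≤ sl M / 2 := by
    rw [hη]
    exact mul_le_of_le_one_right (by linarith) hLa1
  have hκ0 : 0 ≤ κ := by rw [hκ]; positivity
  have hκη : η ^ (p - 1) ≤ 2 * κ * (sl M / 2) ^ (p - 2) := by
    have h1 : η ^ (p - 2) = (sl M / 2) ^ (p - 2) * (L ^ 2)⁻¹ := by
      rw [hη, Real.mul_rpow (by linarith) hLa.le, ← Real.rpow_mul hL0.le]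
      congr 1
      rw [show -a * (p - 2) = -2 by rw [ha]; field_simp, Real.rpow_neg hL0.le]
      norm_cast
    rw [show p - 1 = (p - 2) + 1 by ring, Real.rpow_add_one (ne_of_gt hη0), h1]
    apply le_of_eq
    rw [hκ]
    field_simp
  have hκ' : κ * ((M + 1 : ℕ) : ℝ) ^ 2 ≤ 4 * η := by
    have : ((M + 1 : ℕ) : ℝ) = L := by push_cast; rfl
    rw [this, hκ]
    rw [div_mul_eq_mul_div, div_le_iff₀ (by positivity)]
    nlinarith [mul_pos hη0 (pow_pos hL0 2)]
  have hlow := expected_lower M hM p hp η κ hη0 hηs hκ0 hκη hκ'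
  have hsl1 : sl M ≤ 1 / 2 := by
    unfold sl
    rw [div_le_div_iff₀ (by positivity) (by norm_num)]
    have : (0:ℝ) ≤ M := by positivity
    linarith
  have hη1 : η ≤ 1 / 2 := by linarith
  refine ⟨VT M, inferInstance, GG M, II M, inferInstance, f0 M η, hh M, η / 2, connected M, ?_, ?_,
    ?_, by linarith, by linarith, ?_⟩
  · intro h
    exact inr_not_mem M (Sum.inr ()) (h ▸ Finset.mem_univ _)
  · intro v
    have hi := (f0_inv M hη0.le).2 v
    have hb := hh_bounds M v
    constructor <;> linarith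
  · exact hh_harmonic M p hp _ (fun v hv => ((f0_inv M hη0.le).1 v hv).symm)
  · refine lt_of_lt_of_le ?_ hlow
    have hW : WW M = M * (M + 1) * (M + 2) / 6 := WW_eq M
    have hMpos : (0:ℝ) < M := by exact_mod_cast hM
    have hWpos : 0 < WW M / 16 := by rw [hW]; positivity
    rw [ENNReal.ofReal_lt_ofReal_iff hWpos]
    rw [card_II, card_V]
    have hE : ((GG M).edgeSet.ncard : ℝ) ≤ 3 * (M + 2) := by exact_mod_cast edges_le M
    have hDm : ((GG M).diam : ℝ) ≤ 4 := by exact_mod_cast diam_le M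
    set R : ℝ := Real.log (((2 * M + 5 : ℕ) : ℝ) / (η / 2)) with hR
    have hRle : R ≤ Real.log 40 + (2 + a) * Real.log L := by
      have h1 : ((2 * M + 5 : ℕ) : ℝ) / (η / 2) ≤ 40 * L ^ (2 + a) := by
        have h2 : ((2 * M + 5 : ℕ) : ℝ) ≤ 5 * L := by
          push_cast
          rw [hL]
          linarith
        have h3 : η / 2 = (1 / (8 * L)) * L ^ (-a) := by
          rw [hη]
          unfold sl
          rw [← hL]
          field_simp
          ring
        rw [h3, div_le_iff₀ (by positivity)]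
        have h4 : L ^ (2 + a) * L ^ (-a) = L ^ 2 := by
          rw [← Real.rpow_add hL0, show 2 + a + -a = 2 by ring]
          norm_cast
        calc ((2 * M + 5 : ℕ) : ℝ) ≤ 5 * L := h2
          _ = 40 * (1 / (8 * L)) * L ^ 2 := by field_simp; ring
          _ = 40 * L ^ (2 + a) * (1 / (8 * L) * L ^ (-a)) := by rw [← h4]; ring
      have h5 : 0 < ((2 * M + 5 : ℕ) : ℝ) / (η / 2) := by positivity
      calc R ≤ Real.log (40 * L ^ (2 + a)) := Real.log_le_log h5 h1
        _ = Real.log 40 + (2 + a) * Real.log L := by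
            rw [Real.log_mul (by norm_num) (Real.rpow_pos_of_pos hL0 _).ne', Real.log_rpow hL0]
    have hR0 : 0 ≤ R := by
      apply Real.log_nonneg
      rw [one_le_div (by positivity)]
      have : (1:ℝ) ≤ ((2 * M + 5 : ℕ) : ℝ) := by exact_mod_cast (by omega : 1 ≤ 2 * M + 5)
      linarith
    calc C * (M : ℝ) * ((GG M).edgeSet.ncard : ℝ) * ((GG M).diam : ℝ) * R
        ≤ |C| * (M : ℝ) * ((GG M).edgeSet.ncard : ℝ) * ((GG M).diam : ℝ) * R := by
          gcongr
          exact le_abs_self C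
      _ ≤ |C| * (M : ℝ) * (3 * (M + 2)) * 4 * R := by gcongr
      _ = (1152 * |C| * R) * (M * (M + 2)) / 96 := by ring
      _ ≤ (1152 * |C| * (Real.log 40 + (2 + a) * Real.log L)) * (M * (M + 2)) / 96 := by gcongr
      _ < (L * (M * (M + 2))) / 96 := by
          gcongr
      _ = WW M / 16 := by rw [hW, hL]; ring

end Q8.LP
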