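import Mathlib

namespace Q8.LP

open Finset

/-- a minimiser of `φ` (if there is one) -/
noncomputable def argminOf (φ : ℝ → ℝ) : ℝ := Classical.epsilon (fun y => ∀ z, φ y ≤ φ z)

lemma argminOf_spec {φ : ℝ → ℝ} (h : ∃ y, ∀ z, φ y ≤ φ z) : ∀ z, φ (argminOf φ) ≤ φ z :=
  Classical.epsilon_spec h

/-- `g x = |x|^{p-2} x`. -/
noncomputable def g (p x : ℝ) : ℝ := |x| ^ (p - 2) * x

lemma g_neg (p x : ℝ) : g p (-x) = - g p x := by
  unfold g
  rw [abs_neg]
  ring

lemma g_nonneg_eq (p : ℝ) (hp : 2 < p) {x : ℝ} (hx : 0 ≤ x) : g p x = x ^ (p - 1) := by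
  unfold g
  rw [abs_of_nonneg hx]
  rcases hx.eq_or_lt with h | h
  · rw [← h]
    rw [Real.zero_rpow (by linarith), Real.zero_rpow (by linarith)]
    ring
  · rw [show p - 1 = (p - 2) + 1 by ring, Real.rpow_add_one (ne_of_gt h)]

lemma g_strictMono (p : ℝ) (hp : 2 < p) : StrictMono (g p) := by
  apply strictMono_of_odd_strictMonoOn_nonneg (g_neg p)
  intro x hx y hy hxy
  have hx' : 0 ≤ x := hx
  have hy' : 0 ≤ y := hy
  rw [g_nonneg_eq p hp hx', g_nonneg_eq p hp hy']
  exact Real.rpow_lt_rpow hx' hxy (by linarith)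

lemma g_zero (p : ℝ) : g p 0 = 0 := by
  unfold g; simp

/-- The three-point cost. -/
noncomputable def cost3 (p a b c y : ℝ) : ℝ := |a - y| ^ p + |b - y| ^ p + |c - y| ^ p

lemma hasDerivAt_cost3 (p : ℝ) (hp : 2 < p) (a b c y : ℝ) :
    HasDerivAt (cost3 p a b c) (-(p * (g p (a - y) + g p (b - y) + g p (c - y)))) y := by
  have key : ∀ a : ℝ, HasDerivAt (fun y => |a - y| ^ p) (-(p * g p (a - y))) y := by
    intro a
    have h1 := hasDerivAt_abs_rpow (a - y) (show 1 < p by linarith)
    have h2 : HasDerivAt (fun y => a - y) (-1) y := by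
      simpa using (hasDerivAt_id y).const_sub a
    have h3 := h1.comp y h2
    refine h3.congr_deriv ?_
    unfold g
    ring
  have := ((key a).add (key b)).add (key c)
  refine this.congr_deriv ?_
  ring

lemma exists_min_cost3 (p : ℝ) (hp : 2 < p) (a b c : ℝ) :
    ∃ y, ∀ z, cost3 p a b c y ≤ cost3 p a b c z := by
  have hcont : Continuous (cost3 p a b c) := by
    unfold cost3
    have : ∀ a : ℝ, Continuous (fun y : ℝ => |a - y| ^ p) := fun a =>
      (continuous_const.sub continuous_id).abs.rpow_const (fun y => Or.inr (by linarith))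
    exact ((this a).add (this b)).add (this c)
  apply hcont.exists_forall_le
  have h1 : Filter.Tendsto (fun y : ℝ => |a - y| ^ p) (Filter.cocompact ℝ) Filter.atTop := by
    have h2 : Filter.Tendsto (fun y : ℝ => |a - y|) (Filter.cocompact ℝ) Filter.atTop := by
      have h3 := tendsto_norm_cocompact_atTop (E := ℝ)
      have h4 : Filter.Tendsto (fun y : ℝ => ‖y‖ - |a|) (Filter.cocompact ℝ) Filter.atTop :=
        Filter.tendsto_atTop_add_const_right _ _ h3
      refine Filter.tendsto_atTop_mono (fun y => ?_) h4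
      rw [Real.norm_eq_abs]
      have := abs_sub_abs_le_abs_sub y a
      rw [abs_sub_comm a y]
      linarith
    exact (tendsto_rpow_atTop (by linarith : 0 < p)).comp h2
  refine Filter.tendsto_atTop_mono (fun y => ?_) h1
  unfold cost3
  have h5 : (0:ℝ) ≤ |b - y| ^ p := Real.rpow_nonneg (abs_nonneg _) _
  have h6 : (0:ℝ) ≤ |c - y| ^ p := Real.rpow_nonneg (abs_nonneg _) _
  linarith

lemma min_cost3_eq (p : ℝ) (hp : 2 < p) (a b c y : ℝ)
    (hy : ∀ z, cost3 p a b c y ≤ cost3 p a b c z) :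
    g p (a - y) + g p (b - y) + g p (c - y) = 0 := by
  have h1 : IsLocalMin (cost3 p a b c) y := Filter.Eventually.of_forall hy
  have h2 := h1.hasDerivAt_eq_zero (hasDerivAt_cost3 p hp a b c y)
  have hp0 : p ≠ 0 := by linarith
  have h3 : p * (g p (a - y) + g p (b - y) + g p (c - y)) = 0 := by linarith
  rcases mul_eq_zero.mp h3 with h | h
  · exact absurd h hp0
  · exact h

/-- Bounds for one update. `H` is the target value, `e = y - H` the new deviation. -/
lemma update_bounds (p : ℝ) (hp : 2 < p) (s η κ H dp dm y : ℝ) (hs : 0 < s) (hη : 0 ≤ η)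
    (hηs : η ≤ s / 2) (hκ : 0 ≤ κ)
    (hκη : η ^ (p - 1) ≤ 2 * κ * (s / 2) ^ (p - 2))
    (hdp : 0 ≤ dp) (hdp' : dp ≤ η) (hdm : 0 ≤ dm) (hdm' : dm ≤ η)
    (hy : ∀ z, cost3 p (H + s + dp) (H - s + dm) H y ≤ cost3 p (H + s + dp) (H - s + dm) H z) :
    0 ≤ y - H ∧ y - H ≤ (dp + dm) / 2 ∧ (dp + dm) / 2 - κ ≤ y - H := by
  have heq := min_cost3_eq p hp _ _ _ _ hy
  set e := y - H with he
  have e1 : H + s + dp - y = s + dp - e := by rw [he]; ring
  have e2 : H - s + dm - y = -(s - dm + e) := by rw [he]; ring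
  have e3 : H - y = - e := by rw [he]; ring
  rw [e1, e2, e3, g_neg, g_neg] at heq
  have mono := g_strictMono p hp
  have h0 : 0 ≤ e := by
    by_contra hneg
    push Not at hneg
    have h1 : g p (s - dm + e) < g p (s + dp - e) := mono (by linarith)
    have h2 : g p e < 0 := by
      have := mono hneg
      rwa [g_zero] at this
    linarith
  have hm : e ≤ (dp + dm) / 2 := by
    by_contra hgt
    push Not at hgt
    have h1 : g p (s + dp - e) < g p (s - dm + e) := mono (by linarith)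
    have h2 : 0 ≤ g p e := by
      have := mono.monotone h0
      rwa [g_zero] at this
    linarith
  refine ⟨h0, hm, ?_⟩
  by_contra hlt
  push Not at hlt
  have hA : 0 ≤ s + dp - e := by linarith
  have hB : s / 2 ≤ s - dm + e := by linarith
  have hB0 : 0 < s - dm + e := by linarith
  rw [g_nonneg_eq p hp hA, g_nonneg_eq p hp hB0.le, g_nonneg_eq p hp h0] at heq
  set A := s + dp - e with hAdef
  set B := s - dm + e with hBdef
  have hAB : 2 * κ < A - B := by rw [hAdef, hBdef]; linarith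
  have hBA : B ≤ A := by linarith
  have hA0 : 0 < A := by linarith
  have h3 : B ^ (p - 1) ≤ B * A ^ (p - 2) := by
    rw [show p - 1 = (p - 2) + 1 by ring, Real.rpow_add_one (ne_of_gt hB0), mul_comm]
    exact mul_le_mul_of_nonneg_left (Real.rpow_le_rpow hB0.le hBA (by linarith)) hB0.le
  have h4 : A ^ (p - 1) = A * A ^ (p - 2) := by
    rw [show p - 1 = (p - 2) + 1 by ring, Real.rpow_add_one (ne_of_gt hA0), mul_comm]
  have h5 : (s / 2) ^ (p - 2) ≤ A ^ (p - 2) :=
    Real.rpow_le_rpow (by linarith) (by linarith) (by linarith)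
  have h6 : 0 < (s / 2) ^ (p - 2) := Real.rpow_pos_of_pos (by linarith) _
  have h7 : e ^ (p - 1) ≤ η ^ (p - 1) := Real.rpow_le_rpow h0 (by linarith) (by linarith)
  have h8 : 2 * κ * (s / 2) ^ (p - 2) < (A - B) * A ^ (p - 2) := by
    calc 2 * κ * (s / 2) ^ (p - 2) ≤ 2 * κ * A ^ (p - 2) :=
          mul_le_mul_of_nonneg_left h5 (by linarith)
      _ < (A - B) * A ^ (p - 2) := mul_lt_mul_of_pos_right hAB (by linarith)
  nlinarith

end Q8.LP
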