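import Pool.Agent.Q8.LP.Traj
import Pool.Agent.Q8.LP.Update

namespace Q8.LP

open Finset MeasureTheory
open scoped ENNReal

section general
variable {V : Type*} [Fintype V]

open Classical in
/-- `y ↦ ∑_{w ∼ v} |f w - y|^p`. -/
noncomputable def localCost (G : SimpleGraph V) (p : ℝ) (f : V → ℝ) (v : V) (y : ℝ) : ℝ :=
  ∑ w, if G.Adj v w then |f w - y| ^ p else 0

open Classical in
/-- One update of the asynchronous `ℓ^p`-relaxation, at the vertex `v`. -/
noncomputable def relax (G : SimpleGraph V) (p : ℝ) (f : V → ℝ) (v : V) : V → ℝ :=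
  Function.update f v (argminOf (localCost G p f v))

/-- The profile after `t` updates, at the vertices `s 0, …, s (t-1)` of `I`. -/
noncomputable def profile (G : SimpleGraph V) (p : ℝ) (I : Finset V) (f₀ : V → ℝ) (s : ℕ → I)
    (t : ℕ) : V → ℝ :=
  traj (fun f (v : I) => relax G p f v) f₀ s t

/-- The approximation time for the update sequence `s` (`⊤` if there is none). -/
noncomputable def approxTime (G : SimpleGraph V) (p : ℝ) (I : Finset V) (f₀ h : V → ℝ) (ε : ℝ)
    (s : ℕ → I) : ℝ≥0∞ :=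
  ⨅ (t : ℕ) (_ : ∀ v, |profile G p I f₀ s t v - h v| ≤ ε), (t : ℝ≥0∞)

/-- The expected approximation time; the update sequence is i.i.d. uniform in `I`. -/
noncomputable def expectedTime (G : SimpleGraph V) (p : ℝ) (I : Finset V) [Nonempty I]
    (f₀ h : V → ℝ) (ε : ℝ) : ℝ≥0∞ :=
  letI : MeasurableSpace I := ⊤
  ∫⁻ s, approxTime G p I f₀ h ε s
    ∂(Measure.infinitePi (fun _ : ℕ => (PMF.uniformOfFintype I).toMeasure))

open Classical in
/-- `h` is the `p`-harmonic extension of `f₀` restricted to the complement of `I`. -/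
def IsPHarmonicExt (G : SimpleGraph V) (p : ℝ) (I : Finset V) (f₀ h : V → ℝ) : Prop :=
  (∀ v, v ∉ I → h v = f₀ v) ∧
    ∀ v ∈ I, (∑ w, if G.Adj v w then SignType.sign (h v - h w) * |h v - h w| ^ (p - 1) else 0) = 0

end general

/-- vertices: path `x_0, …, x_{M+1}`, pendants `b_0, …, b_{M+1}`, a hub. -/
abbrev VT (M : ℕ) := Fin (M + 2) ⊕ (Fin (M + 2) ⊕ Unit)

/-- adjacency -/
def adjB (M : ℕ) : VT M → VT M → Prop
  | .inl i, .inl j => i.val + 1 = j.val ∨ j.val + 1 = i.val
  | .inl i, .inr (.inl j) => i = j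
  | .inr (.inl i), .inl j => i = j
  | .inr (.inl _), .inr (.inr _) => True
  | .inr (.inr _), .inr (.inl _) => True
  | _, _ => False

/-- the graph -/
def GG (M : ℕ) : SimpleGraph (VT M) where
  Adj := adjB M
  symm := ⟨by
    rintro (i | i | i) (j | j | j) h <;> simp_all [adjB]
    tauto⟩
  loopless := ⟨by
    rintro (i | i | i) h <;> simp_all [adjB]⟩

/-- interior vertex -/
def xv (M : ℕ) (k : Fin M) : VT M := Sum.inl ⟨k + 1, by omega⟩

lemma xv_inj (M : ℕ) : Function.Injective (xv M) := by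
  intro a b h
  unfold xv at h
  simp at h
  exact Fin.ext h

/-- interior -/
def II (M : ℕ) : Finset (VT M) := Finset.univ.map ⟨xv M, xv_inj M⟩

lemma mem_II (M : ℕ) (v : VT M) : v ∈ II M ↔ ∃ k : Fin M, xv M k = v := by
  simp [II]

lemma card_II (M : ℕ) : (II M).card = M := by simp [II]

open Classical in
lemma nbr_sum (M : ℕ) (k : Fin M) (F : VT M → ℝ) :
    (∑ w, if (GG M).Adj (xv M k) w then F w else 0)
      = F (Sum.inl ⟨k + 2, by omega⟩) + F (Sum.inl ⟨k, by omega⟩)
        + F (Sum.inr (Sum.inl ⟨k + 1, by omega⟩)) := by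
  rw [Fintype.sum_sum_type, Fintype.sum_sum_type]
  have h1 : ∀ j : Fin (M + 2), (if (GG M).Adj (xv M k) (Sum.inl j) then F (Sum.inl j) else 0)
      = (if j = (⟨k + 2, by omega⟩ : Fin (M + 2)) then F (Sum.inl j) else 0)
        + (if j = (⟨k, by omega⟩ : Fin (M + 2)) then F (Sum.inl j) else 0) := by
    intro j
    have e : (GG M).Adj (xv M k) (Sum.inl j) ↔ (k.val + 1 + 1 = j.val ∨ j.val + 1 = k.val + 1) :=
      Iff.rfl
    rw [if_congr e rfl rfl]
    have e1 : j = (⟨k + 2, by omega⟩ : Fin (M + 2)) ↔ k.val + 1 + 1 = j.val := by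
      rw [Fin.ext_iff]
      constructor <;> intro h <;> simp at h ⊢ <;> omega
    have e2 : j = (⟨k, by omega⟩ : Fin (M + 2)) ↔ j.val + 1 = k.val + 1 := by
      rw [Fin.ext_iff]
      constructor <;> intro h <;> simp at h ⊢ <;> omega
    rw [if_congr e1 rfl rfl, if_congr e2 rfl rfl]
    by_cases ha : k.val + 1 + 1 = j.val
    · have hb : ¬ (j.val + 1 = k.val + 1) := by omega
      rw [if_pos (Or.inl ha), if_pos ha, if_neg hb, add_zero]
    · by_cases hb : j.val + 1 = k.val + 1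
      · rw [if_pos (Or.inr hb), if_neg ha, if_pos hb, zero_add]
      · rw [if_neg (by tauto), if_neg ha, if_neg hb, add_zero]
  have h2 : ∀ j : Fin (M + 2), (if (GG M).Adj (xv M k) (Sum.inr (Sum.inl j)) then
      F (Sum.inr (Sum.inl j)) else 0)
      = (if j = (⟨k + 1, by omega⟩ : Fin (M + 2)) then F (Sum.inr (Sum.inl j)) else 0) := by
    intro j
    have e : (GG M).Adj (xv M k) (Sum.inr (Sum.inl j)) ↔ (⟨k + 1, by omega⟩ : Fin (M + 2)) = j :=
      Iff.rfl
    rw [if_congr e rfl rfl, if_congr (eq_comm) rfl rfl]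
  have h3 : ∀ j : Unit, (if (GG M).Adj (xv M k) (Sum.inr (Sum.inr j)) then
      F (Sum.inr (Sum.inr j)) else 0) = 0 := by
    intro j
    have e : (GG M).Adj (xv M k) (Sum.inr (Sum.inr j)) ↔ False := Iff.rfl
    rw [if_congr e rfl rfl]
    simp
  simp_rw [h1, h2, h3]
  rw [Finset.sum_add_distrib]
  simp

/-- slope -/
noncomputable def sl (M : ℕ) : ℝ := 1 / (2 * (M + 1))

/-- the target -/
noncomputable def hh (M : ℕ) : VT M → ℝ
  | .inl i => i.val * sl M
  | .inr (.inl i) => i.val * sl M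
  | .inr (.inr _) => 0

lemma sl_pos (M : ℕ) : 0 < sl M := by unfold sl; positivity

lemma hh_bounds (M : ℕ) (v : VT M) : 0 ≤ hh M v ∧ hh M v ≤ 1 / 2 := by
  have key : ∀ i : Fin (M + 2), 0 ≤ (i.val : ℝ) * sl M ∧ (i.val : ℝ) * sl M ≤ 1 / 2 := by
    intro i
    have h1 : (i.val : ℝ) ≤ M + 1 := by
      have := i.2
      have h2 : i.val ≤ M + 1 := by omega
      exact_mod_cast h2
    have h2 : (0:ℝ) ≤ i.val := by positivity
    constructor
    · exact mul_nonneg h2 (sl_pos M).le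
    · unfold sl
      rw [mul_one_div, div_le_div_iff₀ (by positivity) (by norm_num)]
      linarith
  rcases v with i | i | i
  · exact key i
  · exact key i
  · constructor <;> simp [hh]

lemma hh_harmonic (M : ℕ) (p : ℝ) (hp : 2 < p) (f₀ : VT M → ℝ)
    (hf : ∀ v, v ∉ II M → hh M v = f₀ v) : IsPHarmonicExt (GG M) p (II M) f₀ (hh M) := by
  classical
  refine ⟨hf, ?_⟩
  intro v hv
  obtain ⟨k, rfl⟩ := (mem_II M v).mp hv
  have hs := sl_pos M
  have h1 := nbr_sum M k (fun w => (SignType.sign (hh M (xv M k) - hh M w) : ℝ) *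
    |hh M (xv M k) - hh M w| ^ (p - 1))
  have e : (∑ w, if (GG M).Adj (xv M k) w then
      (SignType.sign (hh M (xv M k) - hh M w) : ℝ) * |hh M (xv M k) - hh M w| ^ (p - 1) else 0)
      = 0 := by
    rw [h1]
    have a1 : hh M (xv M k) - hh M (Sum.inl ⟨k + 2, by omega⟩) = - sl M := by
      simp only [hh, xv]; push_cast; ring
    have a2 : hh M (xv M k) - hh M (Sum.inl ⟨k, by omega⟩) = sl M := by
      simp only [hh, xv]; push_cast; ring
    have a3 : hh M (xv M k) - hh M (Sum.inr (Sum.inl ⟨k + 1, by omega⟩)) = 0 := by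
      simp only [hh, xv]; ring
    rw [a1, a2, a3, sign_neg (by linarith), sign_pos hs, sign_zero, abs_neg]
    simp
  convert! e using 3

/-- deviation at the path vertex with the number `n` -/
noncomputable def dev (M : ℕ) (f : VT M → ℝ) (n : ℕ) : ℝ :=
  if h : n < M + 2 then f (Sum.inl ⟨n, h⟩) - hh M (Sum.inl ⟨n, h⟩) else 0

/-- weights -/
def wt (M : ℕ) (n : ℕ) : ℝ := n * ((M + 1 : ℕ) - n)

/-- potential -/
noncomputable def pot (M : ℕ) (f : VT M → ℝ) : ℝ := ∑ n ∈ range (M + 2), wt M n * dev M f n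

/-- invariant -/
def inv (M : ℕ) (η : ℝ) (f : VT M → ℝ) : Prop :=
  (∀ v, v ∉ II M → f v = hh M v) ∧ (∀ v, 0 ≤ f v - hh M v ∧ f v - hh M v ≤ η)

lemma inl_zero_not_mem (M : ℕ) : (Sum.inl ⟨0, by omega⟩ : VT M) ∉ II M := by
  rw [mem_II]
  rintro ⟨k, hk⟩
  unfold xv at hk
  simp at hk

lemma inl_last_not_mem (M : ℕ) : (Sum.inl ⟨M + 1, by omega⟩ : VT M) ∉ II M := by
  rw [mem_II]
  rintro ⟨k, hk⟩
  unfold xv at hk
  simp at hk
  have := k.2
  omega

lemma inr_not_mem (M : ℕ) (a) : (Sum.inr a : VT M) ∉ II M := by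
  rw [mem_II]
  rintro ⟨k, hk⟩
  unfold xv at hk
  simp at hk

lemma dev_zero (M : ℕ) {η : ℝ} {f : VT M → ℝ} (hf : inv M η f) : dev M f 0 = 0 := by
  unfold dev
  rw [dif_pos (by omega), hf.1 _ (inl_zero_not_mem M), sub_self]

lemma dev_last (M : ℕ) {η : ℝ} {f : VT M → ℝ} (hf : inv M η f) : dev M f (M + 1) = 0 := by
  unfold dev
  rw [dif_pos (by omega), hf.1 _ (inl_last_not_mem M), sub_self]

lemma dev_bounds (M : ℕ) {η : ℝ} (hη : 0 ≤ η) {f : VT M → ℝ} (hf : inv M η f) (n : ℕ) :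
    0 ≤ dev M f n ∧ dev M f n ≤ η := by
  unfold dev
  split_ifs with h
  · exact hf.2 _
  · exact ⟨le_rfl, hη⟩

open Classical in
/-- Bounds for the new value. -/
lemma relax_bounds (M : ℕ) (p : ℝ) (hp : 2 < p) (η κ : ℝ) (hη : 0 ≤ η)
    (hηs : η ≤ sl M / 2) (hκ : 0 ≤ κ) (hκη : η ^ (p - 1) ≤ 2 * κ * (sl M / 2) ^ (p - 2))
    (f : VT M → ℝ) (hf : inv M η f) (k : Fin M) :
    0 ≤ argminOf (localCost (GG M) p f (xv M k)) - hh M (xv M k) ∧
    argminOf (localCost (GG M) p f (xv M k)) - hh M (xv M k)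
      ≤ (dev M f (k + 2) + dev M f k) / 2 ∧
    (dev M f (k + 2) + dev M f k) / 2 - κ
      ≤ argminOf (localCost (GG M) p f (xv M k)) - hh M (xv M k) := by
  set H := hh M (xv M k) with hH
  have e1 : f (Sum.inl ⟨k + 2, by omega⟩) = H + sl M + dev M f (k + 2) := by
    unfold dev
    rw [dif_pos (by omega), hH]
    simp only [hh, xv]; push_cast; ring
  have e2 : f (Sum.inl ⟨k, by omega⟩) = H - sl M + dev M f k := by
    unfold dev
    rw [dif_pos (by omega), hH]
    simp only [hh, xv]; push_cast; ring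
  have e3 : f (Sum.inr (Sum.inl ⟨k + 1, by omega⟩)) = H := by
    rw [hf.1 _ (inr_not_mem M _), hH]
    simp only [hh, xv]
  have hcost : localCost (GG M) p f (xv M k)
      = cost3 p (H + sl M + dev M f (k + 2)) (H - sl M + dev M f k) H := by
    funext y
    unfold localCost cost3
    rw [← e1, ← e2]
    have := nbr_sum M k (fun w => |f w - y| ^ p)
    rw [e3] at this
    convert this using 3
  have hmin := argminOf_spec (φ := localCost (GG M) p f (xv M k)) (by
    rw [hcost]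
    exact exists_min_cost3 p hp _ _ _)
  have hd1 := dev_bounds M hη hf (k + 2)
  have hd2 := dev_bounds M hη hf k
  refine update_bounds p hp (sl M) η κ H _ _ _ (sl_pos M) hη hηs hκ hκη hd1.1 hd1.2 hd2.1 hd2.2 ?_
  intro z
  have := hmin z
  rw [hcost] at this ⊢
  exact this

end Q8.LP
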