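import Pool.Agent.Q8.LP.Graph

namespace Q8.LP

open Finset MeasureTheory
open scoped ENNReal

lemma relax_at (M : ℕ) (p : ℝ) (f : VT M → ℝ) (k : Fin M) :
    relax (GG M) p f (xv M k) (xv M k) = argminOf (localCost (GG M) p f (xv M k)) := by
  unfold relax Function.update
  rw [dif_pos rfl]

lemma relax_ne (M : ℕ) (p : ℝ) (f : VT M → ℝ) (k : Fin M) {v : VT M} (hv : v ≠ xv M k) :
    relax (GG M) p f (xv M k) v = f v := by
  unfold relax Function.update
  rw [dif_neg hv]

section step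
variable (M : ℕ) (p : ℝ) (hp : 2 < p) (η κ : ℝ) (hη : 0 ≤ η)
    (hηs : η ≤ sl M / 2) (hκ : 0 ≤ κ) (hκη : η ^ (p - 1) ≤ 2 * κ * (sl M / 2) ^ (p - 2))
include hp hη hηs hκ hκη

lemma inv_relax (f : VT M → ℝ) (hf : inv M η f) (k : Fin M) :
    inv M η (relax (GG M) p f (xv M k)) := by
  have hb := relax_bounds M p hp η κ hη hηs hκ hκη f hf k
  have hd1 := dev_bounds M hη hf (k + 2)
  have hd2 := dev_bounds M hη hf k
  constructor
  · intro v hv
    have hne : v ≠ xv M k := by
      rintro rfl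
      exact hv ((mem_II M _).mpr ⟨k, rfl⟩)
    rw [relax_ne M p f k hne]
    exact hf.1 v hv
  · intro v
    by_cases hne : v = xv M k
    · rw [hne, relax_at]
      exact ⟨hb.1, by linarith [hb.2.1]⟩
    · rw [relax_ne M p f k hne]
      exact hf.2 v

lemma close_relax (ε : ℝ) (f : VT M → ℝ) (hf : inv M η f)
    (hc : ∀ v, |f v - hh M v| ≤ ε) (k : Fin M) :
    ∀ v, |relax (GG M) p f (xv M k) v - hh M v| ≤ ε := by
  have hb := relax_bounds M p hp η κ hη hηs hκ hκη f hf k
  have hdev : ∀ n, dev M f n ≤ ε := by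
    intro n
    unfold dev
    split_ifs with h
    · exact le_trans (le_abs_self _) (hc _)
    · exact le_trans (abs_nonneg _) (hc (Sum.inr (Sum.inr ())))
  intro v
  by_cases hne : v = xv M k
  · rw [hne, relax_at, abs_of_nonneg hb.1]
    have := hdev (k + 2)
    have := hdev k
    linarith [hb.2.1]
  · rw [relax_ne M p f k hne]
    exact hc v

omit hp hη hηs hκ hκη in
lemma dev_relax (f : VT M → ℝ) (k : Fin M) (n : ℕ) :
    dev M (relax (GG M) p f (xv M k)) n
      = if n = k + 1 then argminOf (localCost (GG M) p f (xv M k)) - hh M (xv M k)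
        else dev M f n := by
  split_ifs with h
  · subst h
    unfold dev
    rw [dif_pos (by omega)]
    exact congrArg (fun z => z - hh M (xv M k)) (relax_at M p f k)
  · unfold dev
    split_ifs with h2
    · rw [relax_ne M p f k]
      unfold xv
      intro he
      have := congrArg Fin.val (Sum.inl.inj he)
      exact h this
    · rfl

omit hp hη hηs hκ hκη in
lemma pot_relax (f : VT M → ℝ) (k : Fin M) :
    pot M (relax (GG M) p f (xv M k)) = pot M f +
      wt M (k + 1) * (argminOf (localCost (GG M) p f (xv M k)) - hh M (xv M k)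
        - dev M f (k + 1)) := by
  unfold pot
  have hk : (k : ℕ) + 1 ∈ range (M + 2) := by
    rw [mem_range]; omega
  rw [← Finset.add_sum_erase _ _ hk, ← Finset.add_sum_erase _ _ hk]
  have : ∑ n ∈ (range (M + 2)).erase (k + 1), wt M n * dev M (relax (GG M) p f (xv M k)) n
      = ∑ n ∈ (range (M + 2)).erase (k + 1), wt M n * dev M f n := by
    refine Finset.sum_congr rfl fun n hn => ?_
    rw [dev_relax, if_neg (Finset.ne_of_mem_erase hn)]
  rw [this, dev_relax, if_pos rfl]
  ring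

omit hp hη hηs hκ hκη in
lemma wt_nonneg {n : ℕ} (hn : n ≤ M + 1) : 0 ≤ wt M n := by
  unfold wt
  have : (n : ℝ) ≤ ((M + 1 : ℕ) : ℝ) := by exact_mod_cast hn
  exact mul_nonneg (by positivity) (by linarith)

omit hp hη hηs hκ hκη in
lemma wt_le {n : ℕ} : wt M n ≤ ((M + 1 : ℕ) : ℝ) ^ 2 / 4 := by
  unfold wt
  nlinarith [sq_nonneg ((n : ℝ) * 2 - ((M + 1 : ℕ) : ℝ))]

omit hp hη hηs hκ hκη in
lemma parts (d : ℕ → ℝ) (h0 : d 0 = 0) (h1 : d (M + 1) = 0) :
    ∑ k ∈ range M, wt M (k + 1) * ((d (k + 2) + d k) / 2 - d (k + 1))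
      = - ∑ k ∈ range M, d (k + 1) := by
  have h2 := Finset.sum_range_sub (fun i => wt M i * d (i + 1) - wt M (i + 1) * d i) M
  have h3 : ∀ i, (wt M (i + 1) * d (i + 1 + 1) - wt M (i + 1 + 1) * d (i + 1))
      - (wt M i * d (i + 1) - wt M (i + 1) * d i)
      = 2 * (wt M (i + 1) * ((d (i + 2) + d i) / 2 - d (i + 1)) + d (i + 1)) := by
    intro i
    unfold wt
    push_cast
    ring
  simp_rw [h3] at h2
  rw [← Finset.mul_sum, Finset.sum_add_distrib] at h2
  have h4 : wt M M * d (M + 1) - wt M (M + 1) * d M - (wt M 0 * d (0 + 1) - wt M (0 + 1) * d 0)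
      = 0 := by
    rw [h1, h0]
    unfold wt
    simp
  rw [h4] at h2
  linarith

lemma drift_ineq (hM : 0 < M) (hκ' : κ * ((M + 1 : ℕ) : ℝ) ^ 2 ≤ 4 * η)
    [Nonempty (II M)] (f : VT M → ℝ) (hf : inv M η f) :
    pot M f - 2 * η ≤ (Fintype.card (II M) : ℝ)⁻¹ * ∑ j : II M, pot M (relax (GG M) p f j) := by
  have hcard : Fintype.card (II M) = M := by
    rw [Fintype.card_coe, card_II]
  rw [hcard]
  have h1 : ∑ j : II M, pot M (relax (GG M) p f j) = ∑ k : Fin M, pot M (relax (GG M) p f (xv M k)) := by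
    rw [Finset.sum_coe_sort (II M) (fun j => pot M (relax (GG M) p f j))]
    unfold II
    rw [Finset.sum_map]
    rfl
  rw [h1]
  have hMpos : (0:ℝ) < M := by exact_mod_cast hM
  rw [le_inv_mul_iff₀ hMpos]
  have h2 : ∀ k : Fin M, pot M f + wt M (k + 1) * ((dev M f (k + 2) + dev M f k) / 2 - κ
      - dev M f (k + 1)) ≤ pot M (relax (GG M) p f (xv M k)) := by
    intro k
    rw [pot_relax]
    have hb := relax_bounds M p hp η κ hη hηs hκ hκη f hf k
    have hw : 0 ≤ wt M ((k : ℕ) + 1) := wt_nonneg M (by omega)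
    have := mul_le_mul_of_nonneg_left (sub_le_sub_right hb.2.2 (dev M f (k + 1))) hw
    linarith
  have h3 : ∑ k : Fin M, (pot M f + wt M (k + 1) * ((dev M f (k + 2) + dev M f k) / 2 - κ
      - dev M f (k + 1))) ≤ ∑ k : Fin M, pot M (relax (GG M) p f (xv M k)) :=
    Finset.sum_le_sum fun k _ => h2 k
  refine le_trans ?_ h3
  rw [Fin.sum_univ_eq_sum_range (fun k => pot M f + wt M (k + 1) *
    ((dev M f (k + 2) + dev M f k) / 2 - κ - dev M f (k + 1))) M]
  have h4 : ∑ k ∈ range M, (pot M f + wt M (k + 1) *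
      ((dev M f (k + 2) + dev M f k) / 2 - κ - dev M f (k + 1)))
      = M * pot M f + ∑ k ∈ range M, wt M (k + 1) * ((dev M f (k + 2) + dev M f k) / 2
        - dev M f (k + 1)) - κ * ∑ k ∈ range M, wt M (k + 1) := by
    rw [Finset.mul_sum]
    have hc : (M : ℝ) * pot M f = ∑ _k ∈ range M, pot M f := by simp
    rw [hc, ← Finset.sum_add_distrib, ← Finset.sum_sub_distrib]
    refine Finset.sum_congr rfl fun k _ => ?_
    ring
  rw [h4, parts M (dev M f) (dev_zero M hf) (dev_last M hf)]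
  have h5 : ∑ k ∈ range M, dev M f (k + 1) ≤ M * η := by
    calc ∑ k ∈ range M, dev M f (k + 1) ≤ ∑ _k ∈ range M, η :=
          Finset.sum_le_sum fun k _ => (dev_bounds M hη hf (k + 1)).2
      _ = M * η := by simp
  have h6 : ∑ k ∈ range M, wt M (k + 1) ≤ M * (((M + 1 : ℕ) : ℝ) ^ 2 / 4) := by
    calc ∑ k ∈ range M, wt M (k + 1) ≤ ∑ _k ∈ range M, (((M + 1 : ℕ) : ℝ) ^ 2 / 4) :=
          Finset.sum_le_sum fun k _ => wt_le M
      _ = M * (((M + 1 : ℕ) : ℝ) ^ 2 / 4) := by simp
  have h7 : κ * ∑ k ∈ range M, wt M (k + 1) ≤ M * η := by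
    calc κ * ∑ k ∈ range M, wt M (k + 1) ≤ κ * (M * (((M + 1 : ℕ) : ℝ) ^ 2 / 4)) :=
          mul_le_mul_of_nonneg_left h6 hκ
      _ = M * (κ * ((M + 1 : ℕ) : ℝ) ^ 2) / 4 := by ring
      _ ≤ M * (4 * η) / 4 := by gcongr
      _ = M * η := by ring
  linarith

end step

/-- total weight -/
noncomputable def WW (M : ℕ) : ℝ := ∑ n ∈ range (M + 2), wt M n

lemma WW_eq (M : ℕ) : WW M = M * (M + 1) * (M + 2) / 6 := by
  have key : ∀ (a : ℝ) (m : ℕ), ∑ n ∈ range m, (n : ℝ) * (a - n)
      = a * (m * (m - 1)) / 2 - (m - 1) * m * (2 * m - 1) / 6 := by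
    intro a m
    induction m with
    | zero => simp
    | succ m ih =>
      rw [Finset.sum_range_succ, ih]
      push_cast
      ring
  unfold WW wt
  rw [key]
  push_cast
  ring

/-- initial profile -/
noncomputable def f0 (M : ℕ) (η : ℝ) : VT M → ℝ :=
  open Classical in fun v => if v ∈ II M then hh M v + η else hh M v

lemma f0_inv (M : ℕ) {η : ℝ} (hη : 0 ≤ η) : inv M η (f0 M η) := by
  classical
  constructor
  · intro v hv
    unfold f0
    rw [if_neg hv]
  · intro v
    unfold f0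
    split_ifs
    · constructor <;> linarith
    · constructor <;> linarith

lemma pot_f0 (M : ℕ) {η : ℝ} : pot M (f0 M η) = η * WW M := by
  classical
  unfold pot WW
  rw [Finset.mul_sum]
  refine Finset.sum_congr rfl fun n hn => ?_
  rw [mem_range] at hn
  by_cases h0 : n = 0
  · subst h0; simp [wt]
  by_cases h1 : n = M + 1
  · subst h1; simp [wt]
  · have : dev M (f0 M η) n = η := by
      unfold dev f0
      rw [dif_pos hn, if_pos]
      · ring
      · rw [mem_II]
        refine ⟨⟨n - 1, by omega⟩, ?_⟩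
        unfold xv
        congr 1
        ext
        simp
        omega
    rw [this]
    ring

lemma pot_le (M : ℕ) {δ : ℝ} {f : VT M → ℝ} (hf : ∀ n, dev M f n ≤ δ) : pot M f ≤ δ * WW M := by
  unfold pot WW
  rw [Finset.mul_sum]
  refine Finset.sum_le_sum fun n hn => ?_
  rw [mem_range] at hn
  have := mul_le_mul_of_nonneg_left (hf n) (wt_nonneg M (show n ≤ M + 1 by omega))
  linarith

instance nonempty_II (M : ℕ) [NeZero M] : Nonempty (II M) :=
  ⟨⟨xv M ⟨0, Nat.pos_of_ne_zero (NeZero.ne M)⟩, (mem_II M _).mpr ⟨_, rfl⟩⟩⟩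

/-- The lower bound for the expected approximation time. -/
theorem expected_lower (M : ℕ) (hM : 0 < M) (p : ℝ) (hp : 2 < p) (η κ : ℝ) (hη : 0 < η)
    (hηs : η ≤ sl M / 2) (hκ : 0 ≤ κ) (hκη : η ^ (p - 1) ≤ 2 * κ * (sl M / 2) ^ (p - 2))
    (hκ' : κ * ((M + 1 : ℕ) : ℝ) ^ 2 ≤ 4 * η) [Nonempty (II M)] :
    ENNReal.ofReal (WW M / 16) ≤
      expectedTime (GG M) p (II M) (f0 M η) (hh M) (η / 2) := by
  let _ : MeasurableSpace (II M) := ⊤
  have : DiscreteMeasurableSpace (II M) := ⟨fun _ => trivial⟩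
  have hMr : (0:ℝ) < M := by exact_mod_cast hM
  have hW : 0 < WW M := by rw [WW_eq]; positivity
  have h := hitting (J := II M) (fun f (v : II M) => relax (GG M) p f v) (f0 M η) (inv M η)
    (fun f => ∀ v, |f v - hh M v| ≤ η / 2) (pot M) (2 * η) (η * WW M)
    (f0_inv M hη.le)
    (by
      intro f j hf
      obtain ⟨k, hk⟩ := (mem_II M j).mp j.2
      show inv M η (relax (GG M) p f j)
      rw [← hk]
      exact inv_relax M p hp η κ hη.le hηs hκ hκη f hf k)
    (by
      intro f j hf hQ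
      obtain ⟨k, hk⟩ := (mem_II M j).mp j.2
      show ∀ v, |relax (GG M) p f j v - hh M v| ≤ η / 2
      rw [← hk]
      exact close_relax M p hp η κ hη.le hηs hκ hκη (η / 2) f hf hQ k)
    (fun f hf => drift_ineq M p hp η κ hη.le hηs hκ hκη hM hκ' f hf)
    (mul_pos hη hW) (pot_f0 M)
    (fun f hf => pot_le M (fun n => (dev_bounds M hη.le hf n).2))
    (by
      intro f hf hQ
      have : pot M f ≤ (η / 2) * WW M := by
        apply pot_le
        intro n
        unfold dev
        split_ifs with hn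
        · exact le_trans (le_abs_self _) (hQ _)
        · positivity
      linarith)
    ⌊WW M / 8⌋₊
    (by
      have h1 := Nat.floor_le (show 0 ≤ WW M / 8 by positivity)
      have : 4 * (2 * η) * ((⌊WW M / 8⌋₊ : ℕ) : ℝ) ≤ 4 * (2 * η) * (WW M / 8) :=
        mul_le_mul_of_nonneg_left h1 (by positivity)
      linarith)
  refine le_trans ?_ h
  apply ENNReal.ofReal_le_ofReal
  have := Nat.lt_floor_add_one (WW M / 8)
  linarith

end Q8.LP
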