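import Mathlib

namespace Q8.LP

open MeasureTheory ProbabilityTheory Finset
open scoped ENNReal

section traj
variable {J S : Type*}

/-- The state after `t` steps of the recursion `S_{t+1} = step S_t (s t)`. -/
def traj (step : S → J → S) (x : S) (s : ℕ → J) : ℕ → S
  | 0 => x
  | t + 1 => step (traj step x s t) (s t)

lemma traj_congr (step : S → J → S) (x : S) (s s' : ℕ → J) (t : ℕ)
    (h : ∀ n < t, s n = s' n) : traj step x s t = traj step x s' t := by
  induction t with
  | zero => rfl
  | succ t ih =>
    show step _ _ = step _ _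
    rw [ih (fun n hn => h n (by omega)), h t (by omega)]

variable [Fintype J] [Nonempty J]

/-- The law of an i.i.d. sequence of uniform elements of the finite set `J`. -/
noncomputable def iidUniform (J : Type*) [Fintype J] [Nonempty J] :
    @Measure (ℕ → J) (@MeasurableSpace.pi ℕ (fun _ => J) (fun _ => ⊤)) :=
  letI : MeasurableSpace J := ⊤
  Measure.infinitePi (fun _ : ℕ => (PMF.uniformOfFintype J).toMeasure)

variable [MeasurableSpace J] [DiscreteMeasurableSpace J]

/-- Auxiliary version with a given discrete measurable structure. -/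
noncomputable def iidU (J : Type*) [Fintype J] [Nonempty J] [MeasurableSpace J] :
    Measure (ℕ → J) :=
  Measure.infinitePi (fun _ : ℕ => (PMF.uniformOfFintype J).toMeasure)

instance : IsProbabilityMeasure (iidU J) := by unfold iidU; infer_instance

/-- A function of finitely many coordinates is a function of the restriction. -/
lemma factor {β : Type*} (t : ℕ) (F : (ℕ → J) → β)
    (hF : ∀ s s' : ℕ → J, (∀ n < t, s n = s' n) → F s = F s') :
    ∃ G : ((i : Finset.range t) → J) → β, ∀ s, F s = G (fun i => s i) := by
  classical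
  refine ⟨fun r => F (fun n => if h : n ∈ Finset.range t then r ⟨n, h⟩ else Classical.arbitrary J), ?_⟩
  intro s
  apply hF
  intro n hn
  simp [hn]

lemma measurable_of_factor {β : Type*} [MeasurableSpace β] (t : ℕ) (F : (ℕ → J) → β)
    (hF : ∀ s s' : ℕ → J, (∀ n < t, s n = s' n) → F s = F s') : Measurable F := by
  obtain ⟨G, hG⟩ := factor t F hF
  have : F = G ∘ (fun s => (fun i : Finset.range t => s i)) := funext hG
  rw [this]
  have h1 : Measurable G := Measurable.of_discrete
  refine h1.comp ?_
  fun_prop

lemma bounded_of_factor (t : ℕ) (F : (ℕ → J) → ℝ)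
    (hF : ∀ s s' : ℕ → J, (∀ n < t, s n = s' n) → F s = F s') : ∃ C, ∀ s, ‖F s‖ ≤ C := by
  obtain ⟨G, hG⟩ := factor t F hF
  obtain ⟨C, hC⟩ := Finite.bddAbove_range (fun r => ‖G r‖)
  refine ⟨C, fun s => ?_⟩
  rw [hG]
  exact hC ⟨_, rfl⟩

lemma integrable_of_factor (t : ℕ) (F : (ℕ → J) → ℝ)
    (hF : ∀ s s' : ℕ → J, (∀ n < t, s n = s' n) → F s = F s') : Integrable F (iidU J) := by
  obtain ⟨C, hC⟩ := bounded_of_factor t F hF
  exact Integrable.of_bound (measurable_of_factor t F hF).aestronglyMeasurable C
    (Filter.Eventually.of_forall hC)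

/-- One step: averaging over the next letter. -/
lemma integral_step (t : ℕ) (G : J → (ℕ → J) → ℝ)
    (hG : ∀ j, ∀ s s' : ℕ → J, (∀ n < t, s n = s' n) → G j s = G j s') :
    ∫ s, G (s t) s ∂(iidU J) = ∫ s, (Fintype.card J : ℝ)⁻¹ * ∑ j, G j s ∂(iidU J) := by
  classical
  have hind : iIndepFun (fun (i : ℕ) (s : ℕ → J) => s i) (iidU J) := by
    unfold iidU
    exact iIndepFun_infinitePi (X := fun _ x => x) (fun _ => measurable_id)
  have h1 : ∀ s : ℕ → J, G (s t) s = ∑ j, (if s t = j then (1:ℝ) else 0) * G j s := by
    intro s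
    simp
  have hfac : ∀ j, ∃ H : ((i : Finset.range t) → J) → ℝ, ∀ s, G j s = H (fun i => s i) :=
    fun j => factor t (G j) (hG j)
  choose H hH using hfac
  have hint : ∀ j, Integrable (fun s : ℕ → J => (if s t = j then (1:ℝ) else 0) * G j s) (iidU J) := by
    intro j
    refine integrable_of_factor (t + 1) _ ?_
    intro s s' h
    rw [h t (by omega), hG j s s' (fun n hn => h n (by omega))]
  have hint' : ∀ j, Integrable (fun s : ℕ → J => G j s) (iidU J) :=
    fun j => integrable_of_factor t _ (hG j)
  simp_rw [h1]
  rw [integral_finsetSum _ (fun j _ => hint j)]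
  rw [integral_const_mul, integral_finsetSum _ (fun j _ => hint' j), Finset.mul_sum]
  refine Finset.sum_congr rfl fun j _ => ?_
  have hX : Measurable (fun s : ℕ → J => s t) := by fun_prop
  have hi : IndepFun (fun s : ℕ → J => s t) (fun s : ℕ → J => (fun i : Finset.range t => s i))
      (iidU J) := by
    have h2 := hind.indepFun_finset ({t} : Finset ℕ) (Finset.range t) (by simp)
      (fun i => by fun_prop)
    have h3 : Measurable (fun r : (({t} : Finset ℕ) → J) => r ⟨t, by simp⟩) := by fun_prop
    exact h2.comp h3 measurable_id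
  have hi2 : IndepFun (fun s : ℕ → J => if s t = j then (1:ℝ) else 0) (fun s => G j s)
      (iidU J) := by
    have h4 : Measurable (fun a : J => if a = j then (1:ℝ) else 0) := Measurable.of_discrete
    have h5 : Measurable (H j) := Measurable.of_discrete
    have h6 := hi.comp h4 h5
    have h7 : (H j ∘ fun s : ℕ → J => (fun i : Finset.range t => s i)) = fun s => G j s := by
      funext s
      exact (hH j s).symm
    rw [h7] at h6
    exact h6
  have h8 := hi2.integral_mul_eq_mul_integral
    (integrable_of_factor (t + 1) _ (by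
      intro s s' h
      rw [h t (by omega)])).aestronglyMeasurable (hint' j).aestronglyMeasurable
  rw [show (fun s : ℕ → J => (if s t = j then (1:ℝ) else 0) * G j s)
    = (fun s : ℕ → J => if s t = j then (1:ℝ) else 0) * (fun s => G j s) from rfl]
  rw [h8]
  congr 1
  -- the probability of a letter
  have h9 : (∫ s : ℕ → J, (if s t = j then (1:ℝ) else 0) ∂(iidU J))
      = ∫ a : J, (if a = j then (1:ℝ) else 0) ∂((PMF.uniformOfFintype J).toMeasure) := by
    have h10 : (iidU J).map (fun s : ℕ → J => s t) = (PMF.uniformOfFintype J).toMeasure := by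
      unfold iidU
      exact Measure.infinitePi_map_eval (fun _ : ℕ => (PMF.uniformOfFintype J).toMeasure) t
    rw [← h10, integral_map hX.aemeasurable]
    exact (Measurable.of_discrete).aestronglyMeasurable
  rw [h9, PMF.integral_eq_sum]
  simp

/-- The drift inequality. -/
theorem drift (step : S → J → S) (x : S) (P : S → Prop) (Φ : S → ℝ) (c : ℝ)
    (h0 : P x) (hP : ∀ y j, P y → P (step y j))
    (hΦ : ∀ y, P y → Φ y - c ≤ (Fintype.card J : ℝ)⁻¹ * ∑ j, Φ (step y j)) (t : ℕ) :
    Φ x - c * t ≤ ∫ s, Φ (traj step x s t) ∂(iidU J) := by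
  have hPt : ∀ t s, P (traj step x s t) := by
    intro t s
    induction t with
    | zero => exact h0
    | succ t ih => exact hP _ _ ih
  induction t with
  | zero => simp [traj]
  | succ t ih =>
    have h1 : ∫ s, Φ (traj step x s (t + 1)) ∂(iidU J)
        = ∫ s, (Fintype.card J : ℝ)⁻¹ * ∑ j, Φ (step (traj step x s t) j) ∂(iidU J) := by
      exact integral_step t (fun j s => Φ (step (traj step x s t) j)) (by
        intro j s s' h
        show Φ (step (traj step x s t) j) = Φ (step (traj step x s' t) j)
        rw [traj_congr step x s s' t h])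
    rw [h1]
    have h2 : ∫ s, (Φ (traj step x s t) - c) ∂(iidU J)
        ≤ ∫ s, (Fintype.card J : ℝ)⁻¹ * ∑ j, Φ (step (traj step x s t) j) ∂(iidU J) := by
      apply integral_mono
      · exact integrable_of_factor t _ (by
          intro s s' h
          show Φ (traj step x s t) - c = Φ (traj step x s' t) - c
          rw [traj_congr step x s s' t h])
      · exact integrable_of_factor t _ (by
          intro s s' h
          show (Fintype.card J : ℝ)⁻¹ * ∑ j, Φ (step (traj step x s t) j) =
            (Fintype.card J : ℝ)⁻¹ * ∑ j, Φ (step (traj step x s' t) j)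
          rw [traj_congr step x s s' t h])
      · intro s
        exact hΦ _ (hPt t s)
    rw [integral_sub (integrable_of_factor t _ (by
          intro s s' h
          show Φ (traj step x s t) = Φ (traj step x s' t)
          rw [traj_congr step x s s' t h])) (integrable_const _)] at h2
    simp only [integral_const, probReal_univ, smul_eq_mul, one_mul] at h2
    push_cast
    linarith

/-- Lower bound for the expected hitting time of a persistent set. -/
theorem hitting (step : S → J → S) (x : S) (P Q : S → Prop) (Φ : S → ℝ) (c M : ℝ)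
    (h0 : P x) (hP : ∀ y j, P y → P (step y j)) (hQ : ∀ y j, P y → Q y → Q (step y j))
    (hΦ : ∀ y, P y → Φ y - c ≤ (Fintype.card J : ℝ)⁻¹ * ∑ j, Φ (step y j))
    (hM : 0 < M) (hx : Φ x = M) (hΦM : ∀ y, P y → Φ y ≤ M) (hΦQ : ∀ y, P y → Q y → Φ y ≤ M / 2)
    (T : ℕ) (hT : 4 * c * T ≤ M) :
    ENNReal.ofReal ((T + 1) / 2) ≤
      ∫⁻ s, (⨅ (t : ℕ) (_ : Q (traj step x s t)), (t : ℝ≥0∞)) ∂(iidU J) := by
  classical
  have hPt : ∀ t s, P (traj step x s t) := by
    intro t s
    induction t with
    | zero => exact h0
    | succ t ih => exact hP _ _ ih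
  have hQt : ∀ s t u, Q (traj step x s t) → t ≤ u → Q (traj step x s u) := by
    intro s t u h htu
    induction u, htu using Nat.le_induction with
    | base => exact h
    | succ u _ ih => exact hQ _ _ (hPt u s) ih
  set A : Set (ℕ → J) := {s | Q (traj step x s T)} with hA
  have hAm : MeasurableSet A := by
    have h1 : Measurable (fun s => decide (Q (traj step x s T))) :=
      measurable_of_factor T _ (by
        intro s s' h
        show decide (Q (traj step x s T)) = decide (Q (traj step x s' T))
        rw [traj_congr step x s s' T h])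
    have h2 : A = (fun s => decide (Q (traj step x s T))) ⁻¹' {true} := by
      ext s
      simp [hA]
    rw [h2]
    exact h1 (MeasurableSet.of_discrete)
  have h1 := drift step x P Φ c h0 hP hΦ T
  have h2 : ∫ s, Φ (traj step x s T) ∂(iidU J)
      ≤ ∫ s, (M - A.indicator (fun _ => M / 2) s) ∂(iidU J) := by
    apply integral_mono
    · exact integrable_of_factor T _ (by
        intro s s' h
        show Φ (traj step x s T) = Φ (traj step x s' T)
        rw [traj_congr step x s s' T h])
    · exact (integrable_const _).sub ((integrable_const _).indicator hAm)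
    · intro s
      show Φ (traj step x s T) ≤ M - A.indicator (fun _ => M / 2) s
      by_cases hs : s ∈ A
      · rw [Set.indicator_of_mem hs]
        have := hΦQ _ (hPt T s) hs
        linarith
      · rw [Set.indicator_of_notMem hs]
        have := hΦM _ (hPt T s)
        linarith
  rw [integral_sub (integrable_const _) ((integrable_const _).indicator hAm),
    integral_indicator_const _ hAm] at h2
  simp only [integral_const, probReal_univ, smul_eq_mul, one_mul] at h2
  have h3 : (iidU J).real A ≤ 1 / 2 := by
    have : (iidU J).real A * (M / 2) ≤ M / 4 := by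
      rw [hx] at h1
      linarith
    have h4 : (iidU J).real A * (M / 2) ≤ (1 / 2) * (M / 2) := by linarith
    exact le_of_mul_le_mul_right h4 (by linarith)
  have h5 : (1:ℝ) / 2 ≤ (iidU J).real Aᶜ := by
    rw [probReal_compl_eq_one_sub hAm]
    linarith
  calc ENNReal.ofReal ((T + 1) / 2)
      ≤ ENNReal.ofReal ((T + 1) * (iidU J).real Aᶜ) := by
        apply ENNReal.ofReal_le_ofReal
        have : (0:ℝ) ≤ (T:ℝ) + 1 := by positivity
        nlinarith
    _ = ((T + 1 : ℕ) : ℝ≥0∞) * (iidU J) Aᶜ := by
        rw [ENNReal.ofReal_mul (by positivity), measureReal_def,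
          ENNReal.ofReal_toReal (measure_ne_top _ _)]
        congr 1
        rw [show ((T:ℝ) + 1) = (((T + 1 : ℕ)) : ℝ) by push_cast; ring]
        exact ENNReal.ofReal_natCast _
    _ = ∫⁻ s, Aᶜ.indicator (fun _ => ((T + 1 : ℕ) : ℝ≥0∞)) s ∂(iidU J) := by
        rw [lintegral_indicator_const hAm.compl]
    _ ≤ _ := by
        apply lintegral_mono
        intro s
        show Aᶜ.indicator (fun _ => ((T + 1 : ℕ) : ℝ≥0∞)) s ≤ _
        by_cases hs : s ∈ Aᶜ
        · rw [Set.indicator_of_mem hs]
          refine le_iInf₂ ?_
          intro t ht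
          have : T + 1 ≤ t := by
            by_contra hcon
            exact hs (hQt s t T ht (by omega))
          exact_mod_cast this
        · rw [Set.indicator_of_notMem hs]
          exact bot_le

end traj

end Q8.LP
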